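import Pool.Agent.helper12.OB.SpecC

set_option autoImplicit false

/-!
# Row FTT of project ob: the torus sum without points of order `p`
-/

namespace Pool.Agent.OB

open Pool.Agent.helper58.DC Pool.Agent.DI Pool.Agent.GR

open Classical in
theorem FTT_card {G : Type} [Group G] (M : Ideal (integralClosure ℤ ℂ)) (χ : G → ℂ)
    (S : Set (G → ℂ)) (hS : S.Finite) :
    (Nat.card {ψ : G → ℂ // ψ ∈ S ∧ Induces M ψ χ} : ℂ) =
      ∑ᶠ ψ ∈ S, if Induces M ψ χ then (1 : ℂ) else 0 := by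
  rw [finsum_mem_eq_finite_toFinset_sum _ hS, Finset.sum_boole]
  congr 1
  have e : {ψ : G → ℂ | ψ ∈ S ∧ Induces M ψ χ} =
      ↑(hS.toFinset.filter fun ψ => Induces M ψ χ) := by
    ext ψ
    simp
  rw [← Set.ncard_coe_finset, ← e]
  exact Nat.card_coe_set_eq _

theorem FTT_pw {G : Type} [Group G] {k : ℕ} {ζ : G → ℂ} (h : ∀ x y, ζ (y * x * y⁻¹) = ζ x) :
    ∀ x y, pw k ζ (y * x * y⁻¹) = pw k ζ x := by
  intro x y
  unfold pw
  rw [conj_pow, h]

theorem FTT (hTEX : TEX_stmt) (hPRM : PRM_stmt) (hCHM : CHM_stmt) (hCNJ : CNJ_stmt)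
    (hCLA : CLA_stmt) (hCCI : CCI_stmt) (hB2 : B2_stmt) : FTT_stmt := by
  classical
  intro p e M hM G _ _ hOp χ hχ ζ hζ k hk
  have : Fact p.Prime := ⟨hM.pr⟩
  have hfin : ∀ S : Set (Finset (Subgroup G)), S.Finite := fun S => Set.toFinite S
  set N : Finset (Subgroup G) → ℕ := fun C =>
    Nat.card {ψ : G → ℂ // ψ ∈ IrrOn (nrm C) ∧ Induces M ψ χ} with hN
  set R : Finset (Subgroup G) → ℂ := fun C => (∑ᶠ ψ ∈ IrrOn (nrm C), cc ψ ζ ^ 2) - (N C : ℂ) with hR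
  -- the torus sum
  have h1 : To p (pw k ζ) (pw k ζ) 0 = ∑ᶠ C ∈ {C : Finset (Subgroup G) | IsRadical p C},
      (-1) ^ (C.card + 1) * ((Nat.card (nrm C) : ℂ) * ∑ᶠ ψ ∈ IrrOn (nrm C), cc ψ ζ ^ 2) := by
    rw [hTEX G p hOp (pw k ζ) (pw k ζ) (FTT_pw hζ.cls) (FTT_pw hζ.cls) 0]
    refine finsum_mem_congr rfl fun C _ => ?_
    rw [← hPRM G (nrm C) ζ k hk]
    congr 2
    refine finsum_mem_congr rfl fun ψ _ => ?_
    rw [pow_zero, mul_one, sq]
  -- the alternating sum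
  have h2 : (Nat.card G : ℂ) * (aB p M χ : ℂ) = ∑ᶠ C ∈ {C : Finset (Subgroup G) | IsRadical p C},
      (-1) ^ (C.card + 1) * ((Nat.card (nrm C) : ℂ) * (N C : ℂ)) := by
    have h3 := hCLA G p (fun C => (N C : ℤ)) (fun g C hC => by
      have := (hCNJ G g C).2 M χ hχ
      simp only [hN]
      exact_mod_cast this)
    have h4 := congrArg (Int.castAddHom ℂ) h3
    rw [AddMonoidHom.map_finsum_mem _ _ (hfin _)] at h4
    have h5 : (Int.castAddHom ℂ) ((Nat.card G : ℤ) *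
        ∑ᶠ c : Quot (chainRel (G := G) p), (-1) ^ (c.out.1.card - 1) * (N c.out.1 : ℤ)) =
        (Nat.card G : ℂ) * (aB p M χ : ℂ) := by
      rw [show (Nat.card G : ℂ) = ((Nat.card G : ℤ) : ℂ) from (Int.cast_natCast _).symm]
      exact Int.cast_mul _ _
    rw [h5] at h4
    rw [h4]
    refine finsum_mem_congr rfl fun C _ => ?_
    show (((-1) ^ (C.card + 1) * ((Nat.card (nrm C) : ℤ) * (N C : ℤ)) : ℤ) : ℂ) = _
    push_cast
    rfl
  have hR1 : ∀ C, IsRadical p C → InM M (R C) := by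
    intro C hC
    have hf := (hB2 G (nrm C)).1
    simp only [hR, hN]
    rw [FTT_card M χ (IrrOn (nrm C)) hf, ← finsum_mem_sub_distrib _ _ hf]
    refine InM.finsum_mem hM fun ψ hψ => ?_
    have a1 := hζ.blk C hC ψ hψ
    have a2 : IntAt M (cc ψ ζ) :=
      ((hCCI G (nrm C) ψ hψ).2.2 p M hM ζ fun h _ x => hζ.cls x h).1 hζ.int
    by_cases hI : Induces M ψ χ
    · rw [if_pos hI] at a1 ⊢
      have e1 : cc ψ ζ ^ 2 - 1 = (cc ψ ζ - 1) * (cc ψ ζ + 1) := by ring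
      rw [e1]
      exact InM.mul_right hM a1 (a2.add hM (IntAt.one hM))
    · rw [if_neg hI] at a1 ⊢
      have e1 : cc ψ ζ ^ 2 - 0 = (cc ψ ζ - 0) * cc ψ ζ := by ring
      rw [e1]
      exact InM.mul_right hM a1 a2
  have hR2 : ∀ (g : G) (C : Finset (Subgroup G)), IsRadical p C →
      R (chainMap (MulAut.conj g) C) = R C := by
    intro g C _
    have b1 := (hCNJ G g C).1 ζ ζ hζ.cls hζ.cls (fun a _ => a ^ 2)
    have b2 := (hCNJ G g C).2 M χ hχ
    simp only [hR, hN]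
    rw [b1, b2]
  obtain ⟨w, hw, hw2⟩ := hCHM p M hM G R hR1 hR2
  refine ⟨w, hw, ?_⟩
  rw [← hw2, sub_zero, h1, h2, ← finsum_mem_sub_distrib _ _ (hfin _)]
  refine finsum_mem_congr rfl fun C _ => ?_
  simp only [hR]
  ring

end Pool.Agent.OB
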