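import Pool.Agent.helper38.OB.Spec

/-!
# Row MA: sum of TA over the levels `l ≥ M`
-/

namespace Pool.Agent.OB

open Finset

theorem ma_be_ge {h : ℕ} (hh : 3 ≤ h) : (4 : ℝ) ≤ (be h : ℝ) := by
  have h1 : 4 ≤ C0 h := by
    unfold C0
    nlinarith [hh]
  have h2 : 4 ≤ be h := by
    unfold be
    calc 4 ≤ C0 h := h1
      _ = C0 h ^ 1 := (pow_one _).symm
      _ ≤ C0 h ^ 6 := Nat.pow_le_pow_right (by omega) (by norm_num)
  exact_mod_cast h2

theorem ma_wt_nonneg (h : ℕ) {κ : ℝ} (hk : 0 ≤ κ) (x : ℕ) : 0 ≤ wt h κ x := by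
  unfold wt pl
  positivity

theorem ma_mem_RP {j : ℕ} (c : Fin j → ℤ) (t : ℤ) (V : Finset ℕ) (x : Fin j → ℕ) :
    x ∈ RP c t V ↔ ((∀ i, x i ∈ V) ∧ Function.Injective x) ∧ lf c x = t := by
  classical
  unfold RP RQ Inj
  simp only [Finset.mem_filter, Fintype.mem_piFinset]

theorem ma_mem_top (h l : ℕ) {j : ℕ} (F : Finset (Fin j → ℕ)) (x : Fin j → ℕ) :
    x ∈ top h l F ↔ x ∈ F ∧ ∃ i, lev h (x i) = l := by
  classical
  unfold top
  simp only [Finset.mem_filter]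

theorem ma_Ex_nonneg (h : ℕ) {κ : ℝ} (hk : 0 ≤ κ) {j : ℕ} (F : Finset (Fin j → ℕ)) : 0 ≤ Ex h κ F := by
  unfold Ex
  exact Finset.sum_nonneg fun x _ => Finset.prod_nonneg fun i _ => ma_wt_nonneg h hk _

theorem ma_split (hBAS : BAS_stmt) {h : ℕ} (hh : 3 ≤ h) {κ : ℝ} (hk : 0 ≤ κ) (l0 L j : ℕ) (c : Fin j → ℤ) (hj : 1 ≤ j)
    (n : ℤ) :
    Ex h κ (RP c n (U h l0 L)) ≤ ∑ l ∈ Finset.Icc l0 L, Ex h κ (top h l (RP c n (U h l0 l))) := by
  classical
  have hne : (Finset.univ : Finset (Fin j)).Nonempty := ⟨⟨0, by omega⟩, Finset.mem_univ _⟩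
  let g : (Fin j → ℕ) → ℕ := fun x => Finset.univ.sup fun i => lev h (x i)
  have key : ∀ x ∈ RP c n (U h l0 L), g x ∈ Finset.Icc l0 L ∧ x ∈ top h (g x) (RP c n (U h l0 (g x))) := by
    intro x hx
    rw [ma_mem_RP] at hx
    obtain ⟨⟨hxU, hinj⟩, hlf⟩ := hx
    have hlev : ∀ i, ∃ k, l0 ≤ k ∧ k ≤ L ∧ x i ∈ S h k ∧ lev h (x i) = k := by
      intro i
      have h1 := hxU i
      unfold U at h1
      rw [Finset.mem_biUnion] at h1
      obtain ⟨k, hk1, hk2⟩ := h1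
      rw [Finset.mem_Icc] at hk1
      exact ⟨k, hk1.1, hk1.2, hk2, ((hBAS h hh k).1 _ hk2).1⟩
    obtain ⟨i0, -, hi0⟩ := Finset.exists_mem_eq_sup Finset.univ hne (fun i => lev h (x i))
    have hle : ∀ i, lev h (x i) ≤ g x := fun i => Finset.le_sup (f := fun i => lev h (x i)) (Finset.mem_univ i)
    have hg : g x = lev h (x i0) := hi0
    refine ⟨?_, ?_⟩
    · obtain ⟨k, hk1, hk2, -, hk4⟩ := hlev i0
      rw [Finset.mem_Icc, hg, hk4]
      exact ⟨hk1, hk2⟩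
    · rw [ma_mem_top, ma_mem_RP]
      refine ⟨⟨⟨?_, hinj⟩, hlf⟩, i0, hg.symm⟩
      intro i
      obtain ⟨k, hk1, hk2, hk3, hk4⟩ := hlev i
      unfold U
      rw [Finset.mem_biUnion]
      refine ⟨k, ?_, hk3⟩
      rw [Finset.mem_Icc]
      refine ⟨hk1, ?_⟩
      rw [← hk4]
      exact hle i
  have h1 : Ex h κ (RP c n (U h l0 L)) =
      ∑ l ∈ Finset.Icc l0 L, ∑ x ∈ (RP c n (U h l0 L)).filter (fun x => g x = l), ∏ i, wt h κ (x i) := by
    unfold Ex
    rw [Finset.sum_fiberwise_of_maps_to]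
    intro x hx
    exact (key x hx).1
  rw [h1]
  apply Finset.sum_le_sum
  intro l _
  unfold Ex
  apply Finset.sum_le_sum_of_subset_of_nonneg
  · intro x hx
    rw [Finset.mem_filter] at hx
    have h2 := (key x hx.1).2
    rw [hx.2] at h2
    exact h2
  · intro x _ _
    exact Finset.prod_nonneg fun i _ => ma_wt_nonneg h hk _

theorem ma_empty (hBAS : BAS_stmt) {h : ℕ} (hh : 3 ≤ h) (κ : ℝ) (l0 l j : ℕ) (c : Fin j → ℤ) (hjh : j < h)
    (hc : Cf h c) (n : ℤ) (M : ℕ) (hlM : l < M) (hn : (h : ℤ) * (Bs h : ℤ) ^ M < |n|) :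
    Ex h κ (top h l (RP c n (U h l0 l))) = 0 := by
  have hB : 1 ≤ Bs h := by
    unfold Bs be C0
    exact Nat.one_le_pow _ _ (Nat.one_le_pow _ _ (by positivity))
  have : top h l (RP c n (U h l0 l)) = ∅ := by
    rw [Finset.eq_empty_iff_forall_notMem]
    intro x hx
    rw [ma_mem_top, ma_mem_RP] at hx
    obtain ⟨⟨⟨hxU, -⟩, hlf⟩, -⟩ := hx
    have hx1 : ∀ i, (x i : ℤ) * h ≤ (Bs h : ℤ) ^ M := by
      intro i
      have h1 := hxU i
      unfold U at h1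
      rw [Finset.mem_biUnion] at h1
      obtain ⟨k, hk1, hk2⟩ := h1
      rw [Finset.mem_Icc] at hk1
      have h2 := ((hBAS h hh k).1 _ hk2).2.2
      have h3 : Bs h ^ (k + 1) ≤ Bs h ^ M := Nat.pow_le_pow_right hB (by omega)
      have h4 : x i * h ≤ Bs h ^ M := by nlinarith
      exact_mod_cast h4
    have h5 : |lf c x| ≤ ∑ i : Fin j, (Bs h : ℤ) ^ M := by
      unfold lf
      refine (Finset.abs_sum_le_sum_abs _ _).trans (Finset.sum_le_sum fun i _ => ?_)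
      rw [abs_mul, Nat.abs_cast]
      have h6 := (hc i).2
      have h7 := hx1 i
      have h8 : |c i| * (x i : ℤ) ≤ (h : ℤ) * (x i : ℤ) := mul_le_mul_of_nonneg_right h6 (by positivity)
      linarith
    rw [hlf, Finset.sum_const, Finset.card_univ, Fintype.card_fin, nsmul_eq_mul] at h5
    have h9 : (j : ℤ) * (Bs h : ℤ) ^ M ≤ (h : ℤ) * (Bs h : ℤ) ^ M :=
      mul_le_mul_of_nonneg_right (by exact_mod_cast hjh.le) (by positivity)
    linarith
  rw [this]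
  unfold Ex
  simp

theorem ma_tail {b C : ℝ} (hb : 4 ≤ b) (hC : 0 < C) (M N : ℕ) (hMN : M ≤ N) :
    ∑ l ∈ Finset.Ico M N, C * ((l : ℝ) + 1) / b ^ l ≤
      2 * C * ((M : ℝ) + 1) / b ^ M - 2 * C * ((N : ℝ) + 1) / b ^ N := by
  induction N, hMN using Nat.le_induction with
  | base => simp
  | succ N hMN ih =>
    rw [Finset.sum_Ico_succ_top hMN]
    have hb0 : 0 < b := by linarith
    have hbN : 0 < b ^ N := pow_pos hb0 N
    have h1 : C * ((N : ℝ) + 1) / b ^ N ≤ 2 * C * ((N : ℝ) + 1) / b ^ N - 2 * C * (((N + 1 : ℕ) : ℝ) + 1) / b ^ (N + 1) := by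
      rw [pow_succ, div_sub_div _ _ (ne_of_gt hbN) (ne_of_gt (mul_pos hbN hb0)), div_le_div_iff₀ hbN (by positivity)]
      push_cast
      have hN : (0 : ℝ) ≤ N := Nat.cast_nonneg N
      have h2 : 0 ≤ (b - 4) * ((N : ℝ) + 1) := mul_nonneg (by linarith) (by linarith)
      have h3 : 0 ≤ C * (b ^ N * b ^ N) * (((b - 4) * ((N : ℝ) + 1)) + 2 * N) := by positivity
      nlinarith [h3]
    linarith

set_option linter.unusedVariables false in
theorem MA (hBAS : BAS_stmt) (hWTS : WTS_stmt) (hTA : TA_stmt) : MA_stmt := by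
  intro h hh
  obtain ⟨C, hC, hT⟩ := hTA h hh
  refine ⟨2 * C, by positivity, ?_⟩
  intro κ hk hk1 l0 L j c hj hjh hc n M hM hor
  have hb := ma_be_ge hh
  have hb0 : (0 : ℝ) < be h := by linarith
  refine (ma_split hBAS hh hk.le l0 L j c hj n).trans ?_
  have h1 : ∑ l ∈ Finset.Icc l0 L, Ex h κ (top h l (RP c n (U h l0 l))) =
      ∑ l ∈ Finset.Icc M L, Ex h κ (top h l (RP c n (U h l0 l))) := by
    symm
    apply Finset.sum_subset
    · intro l hl
      rw [Finset.mem_Icc] at hl ⊢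
      exact ⟨by omega, hl.2⟩
    · intro l hl hl2
      rw [Finset.mem_Icc] at hl hl2
      have h3 : l < M := by
        by_contra h4
        exact hl2 ⟨by omega, hl.2⟩
      rcases hor with h5 | h5
      · omega
      · exact ma_empty hBAS hh κ l0 l j c hjh hc n M h3 h5
  rw [h1]
  have h2 : ∑ l ∈ Finset.Icc M L, Ex h κ (top h l (RP c n (U h l0 l))) ≤
      ∑ l ∈ Finset.Icc M L, C * ((l : ℝ) + 1) / (be h : ℝ) ^ l :=
    Finset.sum_le_sum fun l _ => hT κ hk hk1 l0 l j c hj hjh hc n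
  refine h2.trans ?_
  by_cases hML : M ≤ L + 1
  · have h3 : Finset.Icc M L = Finset.Ico M (L + 1) := by
      ext l
      rw [Finset.mem_Icc, Finset.mem_Ico]
      omega
    rw [h3]
    refine (ma_tail hb hC M (L + 1) hML).trans ?_
    have h4 : 0 ≤ 2 * C * (((L + 1 : ℕ) : ℝ) + 1) / (be h : ℝ) ^ (L + 1) := by positivity
    linarith
  · rw [Finset.Icc_eq_empty (by omega), Finset.sum_empty]
    positivity

end Pool.Agent.OB
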